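import Mathlib
import Pool.Agent.R107.TruncTheta

namespace Pool.Agent.Results.MP_1cbc82_co.Nonneg

open PowerSeries PowerSeries.WithPiTopology
open Pool.Agent.R107.TruncTheta

/-- The triangular numbers `T_n = n(n+1)/2`. -/
def T (n : ℕ) : ℕ := n * (n + 1) / 2

/-- The truncated theta series `∑_{n ≥ 0} (-1)^{T_n} q^{T_{n+2k}}`: its coefficient of `q^N` is the
sum of `(-1)^{T_n}` over the `n` (necessarily at most `N`) with `T_{n+2k} = N`. -/
noncomputable def theta (k : ℕ) : ℤ⟦X⟧ :=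
  PowerSeries.mk fun N => ∑ n ∈ Finset.range (N + 1), if T (n + 2 * k) = N then (-1) ^ T n else 0

/-- `F_k(q) = ∏_{i ≥ 1} (1 + q^i) · ∑_{n ≥ 0} (-1)^{T_n} q^{T_{n+2k}}`. -/
noncomputable def F (k : ℕ) : ℤ⟦X⟧ := (∏' i : ℕ, (1 + X ^ (i + 1))) * theta k

lemma T_even (J : ℕ) : T (2 * J) = J * (2 * J + 1) := by
  unfold T
  rw [show 2 * J * (2 * J + 1) = J * (2 * J + 1) * 2 by ring, Nat.mul_div_cancel _ (by norm_num)]

lemma T_odd (J : ℕ) : T (2 * J + 1) = (J + 1) * (2 * J + 1) := by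
  unfold T
  rw [show (2 * J + 1) * (2 * J + 1 + 1) = (J + 1) * (2 * J + 1) * 2 by ring,
    Nat.mul_div_cancel _ (by norm_num)]

lemma T_succ (n : ℕ) : T (n + 1) = T n + (n + 1) := by
  unfold T
  rw [show (n + 1) * (n + 1 + 1) = n * (n + 1) + (n + 1) * 2 by ring,
    Nat.add_mul_div_right _ _ (by norm_num)]

lemma T_mono : Monotone T := monotone_nat_of_le_succ fun n => by rw [T_succ]; omega

lemma le_T (n : ℕ) : n ≤ T n := by
  induction n with
  | zero => simp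
  | succ n ih => rw [T_succ]; omega

/-- discrete antiderivative -/
def g (J : ℕ) (N : ℤ) : ℤ := 2 * J * (N + 6 - 2 * (J : ℤ) ^ 2)

lemma g_spec (J : ℕ) (N : ℤ) (h : (T (2 * J + 1) : ℤ) ≤ N) :
    |30 * D T J N - (g J N + g (J + 1) N)| ≤ 22 := by
  have h1 : T (2 * J) ≤ T (2 * J + 1) := T_mono (by omega)
  have b1 := p_bounds (n := N - T (2 * J)) (by omega)
  have b2 := p_bounds (n := N - T (2 * J + 1)) (by omega)
  unfold D g
  rw [T_even, T_odd] at *
  push_cast at *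
  rw [abs_le]
  constructor
  · nlinarith [b1.1, b2.2]
  · nlinarith [b1.2, b2.1]

lemma g_ge (k : ℕ) (N : ℤ) (hk : 1 ≤ k) (h : 2 * (k : ℤ) * (k + 1) ≤ N + 4) :
    2 * (N + 4) ≤ g k N := by
  unfold g
  have h1 : (0 : ℤ) ≤ (k : ℤ) - 1 := by omega
  nlinarith [mul_nonneg h1 (sub_nonneg.2 h)]

lemma ineqB (m s P : ℤ) (hm : 21 ≤ m) (hs0 : 0 ≤ s) (hs1 : s ≤ 2 * m)
    (h1 : s ^ 2 + 9 * s + 8 ≤ P) (h2 : P ≤ s ^ 2 + 9 * s + 30) :
    -(4 * m ^ 2 + 2 * m + 2 * s + 8 - 22 * (m - 1)) ≤ P - (2 * m ^ 2 + 2 * m * s + 12 * m) ∧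
    P - (2 * m ^ 2 + 2 * m * s + 12 * m) ≤ 4 * m ^ 2 + 2 * m + 2 * s + 8 - 22 * (m - 1) := by
  have h3 : 0 ≤ m * (m - 21) := mul_nonneg (by omega) (by omega)
  have h4 : 0 ≤ s * (2 * m - s) := mul_nonneg hs0 (by omega)
  have h5 := sq_nonneg (2 * (s - m) + 11)
  constructor
  · linarith
  · linarith

lemma ineqA (M s : ℤ) (hm : 21 ≤ M) (hs0 : 0 ≤ s) (hs1 : s ≤ 2 * M + 1) :
    2 * (M + 1) * (s + 5 - M) ≤ 4 * M ^ 2 + 6 * M + 10 + 2 * s - 22 * M ∧
    -(2 * (M + 1) * (s + 5 - M)) ≤ 4 * M ^ 2 + 6 * M + 10 + 2 * s - 22 * M := by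
  have h3 : 0 ≤ M * (M - 21) := mul_nonneg (by omega) (by omega)
  have h4 : 0 ≤ M * (3 * M - 12 - s) := mul_nonneg (by omega) (by omega)
  have h5 : 0 ≤ M * s := mul_nonneg (by omega) hs0
  constructor
  · linarith
  · linarith

lemma big (k : ℕ) (hk1 : 1 ≤ k) (M N : ℕ) (hM0 : 21 ≤ M) (hM1 : T (2 * M) ≤ N)
    (hM2 : N < T (2 * (M + 1))) (hk : k ≤ M) : 0 ≤ cc T (M + 1 - k) k N := by
  rcases Nat.lt_or_ge N (T (2 * M + 1)) with hN | hN
  · -- case B
    obtain ⟨L, hL⟩ : ∃ L, L = M - k := ⟨_, rfl⟩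
    have hkL : k + L = M := by omega
    rw [show M + 1 - k = L + 1 by omega, cc_append T L 1 k N, hkL]
    have hc1 : cc T 1 M N = p (N - T (2 * M)) := by
      simp only [cc]
      unfold D
      rw [p_neg (n := (N : ℤ) - T (2 * M + 1)) (by omega)]
      ring
    rw [hc1]
    have hest := cc_est T g g_spec L k N (fun i hi => by
      have : T (2 * (k + i) + 1) ≤ T (2 * M) := T_mono (by omega)
      exact_mod_cast this.trans hM1)
    rw [abs_le, hkL] at hest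
    have hp0 := p_nonneg ((N : ℤ) - T (2 * M))
    rcases Nat.eq_zero_or_pos L with rfl | hL0
    · simp only [cc]
      simpa using hp0
    have hp := p_bounds (n := (N : ℤ) - T (2 * M)) (by omega)
    generalize p ((N : ℤ) - T (2 * M)) = pp at hp hp0 ⊢
    rw [T_even] at hM1 hp
    rw [T_odd] at hN
    have hM1' : (M : ℤ) * (2 * M + 1) ≤ N := by exact_mod_cast hM1
    have hN' : (N : ℤ) < (M + 1) * (2 * M + 1) := by exact_mod_cast hN
    have hkM : (k : ℤ) + 1 ≤ M := by omega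
    have hk1' : (1 : ℤ) ≤ k := by exact_mod_cast hk1
    have hgk := g_ge k N hk1 (by
      have h1 : (k : ℤ) * (k + 1) ≤ (M - 1) * M :=
        mul_le_mul (by omega) hkM (by omega) (by omega)
      linarith)
    have hM0' : (21 : ℤ) ≤ M := by exact_mod_cast hM0
    have hLM : (L : ℤ) ≤ (M : ℤ) - 1 := by omega
    push_cast at hp
    obtain ⟨s, hs⟩ : ∃ s : ℤ, (N : ℤ) = 2 * (M : ℤ) ^ 2 + M + s :=
      ⟨N - (2 * (M : ℤ) ^ 2 + M), by ring⟩
    have hs0 : 0 ≤ s := by linarith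
    have hs1 : s ≤ 2 * M := by
      have : s < 2 * M + 1 := by linarith
      omega
    have e1 : (N : ℤ) - M * (2 * M + 1) = s := by rw [hs]; ring
    rw [e1] at hp
    have e2 : g M N = 2 * (M : ℤ) ^ 2 + 2 * M * s + 12 * M := by unfold g; rw [hs]; ring
    rw [e2] at hest
    obtain ⟨lo, hi⟩ := ineqB M s (30 * pp) hM0' hs0 hs1 hp.1 hp.2
    rcases neg_one_pow_eq_or ℤ L with h | h
    · rw [h] at hest ⊢
      linarith [hest.1]
    · rw [h] at hest ⊢
      linarith [hest.1]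
  · -- case A
    obtain ⟨L, hL⟩ : ∃ L, L = M + 1 - k := ⟨_, rfl⟩
    have hkL : k + L = M + 1 := by omega
    rw [← hL]
    have hest := cc_est T g g_spec L k N (fun i hi => by
      have : T (2 * (k + i) + 1) ≤ T (2 * M + 1) := T_mono (by omega)
      exact_mod_cast this.trans hN)
    rw [abs_le, hkL] at hest
    rw [T_odd] at hN
    rw [T_even] at hM2
    have hN' : ((M : ℤ) + 1) * (2 * M + 1) ≤ N := by exact_mod_cast hN
    have hM2' : (N : ℤ) < (M + 1) * (2 * (M + 1) + 1) := by exact_mod_cast hM2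
    have hkM : (k : ℤ) ≤ M := by exact_mod_cast hk
    have hk1' : (1 : ℤ) ≤ k := by exact_mod_cast hk1
    have hM0' : (21 : ℤ) ≤ M := by exact_mod_cast hM0
    have hgk := g_ge k N hk1 (by
      have h1 : (k : ℤ) * (k + 1) ≤ M * (M + 1) :=
        mul_le_mul hkM (by omega) (by omega) (by omega)
      linarith)
    have hLM : (L : ℤ) ≤ M := by omega
    obtain ⟨s, hs⟩ : ∃ s : ℤ, (N : ℤ) = 2 * (M : ℤ) ^ 2 + 3 * M + 1 + s :=
      ⟨N - (2 * (M : ℤ) ^ 2 + 3 * M + 1), by ring⟩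
    have hs0 : 0 ≤ s := by linarith
    have hs1 : s ≤ 2 * M + 1 := by
      have : s < 2 * M + 2 := by linarith
      omega
    have e2 : g (M + 1) N = 2 * (M + 1) * (s + 5 - M) := by
      unfold g; rw [hs]; push_cast; ring
    rw [e2] at hest
    obtain ⟨lo, hi⟩ := ineqA M s hM0' hs0 hs1
    rcases neg_one_pow_eq_or ℤ L with h | h
    · rw [h] at hest
      linarith [hest.1]
    · rw [h] at hest
      linarith [hest.1]

lemma theta_eq (k : ℕ) : theta k = Th T k := rfl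

lemma chk_T : ∀ N < T (2 * (20 + 1)), chk T (N : ℤ) 20 0 = true := by
  decide +kernel

/-- For every `k ≥ 1` all coefficients of `F_k` are non-negative. -/
theorem result (k : ℕ) (hk : 1 ≤ k) (N : ℕ) : 0 ≤ coeff N (F k) := by
  unfold F
  rw [theta_eq]
  apply coeff_nonneg_of T le_T T_mono rfl k
  intro M N hM1 hM2 hkM
  rcases Nat.lt_or_ge M 21 with h | h
  · exact small_of_chk T T_mono 20 chk_T k hk M N (by omega) hM2 hkM
  · exact big k hk M N h hM1 hM2 hkM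

end Pool.Agent.Results.MP_1cbc82_co.Nonneg
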